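import Pool.Agent.Q332.VC.NotWeak

/-!
# A theory of low VC-density which is not weakly VC-minimal

The structure `M` is the disjoint union of countably many dense cyclic orders, in the language `LC`
with one ternary relation symbol (`Pool/Agent/Q332/VC/Cyc.lean`, `Model.lean`, `Defs.lean`). Its
complete theory has low VC-density, hence is dp-minimal, but is not weakly VC-minimal, even after
naming any set of elements of `M`.
-/

set_option autoImplicit false

open FirstOrder FirstOrder.Language

namespace Pool.Agent.Results.MP_670fc8_lc.DisjointCycles

open Pool.Agent.Q332.VC

/-- The complete theory of countably many disjoint dense cyclic orders has low VC-density and is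
dp-minimal, but is not weakly VC-minimal, and no naming of elements makes it so. -/
theorem result : (LC.completeTheory M).IsComplete ∧ LowVCDensity (LC.completeTheory M) ∧
    DpMinimal (LC.completeTheory M) ∧ ¬ WeaklyVCMinimal (LC.completeTheory M) ∧
    ∀ A : Set M, ¬ WeaklyVCMinimal (LC[[A]].completeTheory M) :=
  main

end Pool.Agent.Results.MP_670fc8_lc.DisjointCycles
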